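import Mathlib

/-!
# Latin squares and their graphs
-/

set_option autoImplicit false

namespace Pool.Agent.W185.LSQ

/-- `L` is (the table of) a Latin square with rows, columns and symbols in `Q`. -/
def IsLatinSquare {Q : Type} (L : Q → Q → Q) : Prop :=
  (∀ a, Function.Bijective (L a)) ∧ ∀ b, Function.Bijective fun a => L a b

/-- The Latin square graph: the vertices are the cells, two distinct cells are adjacent if they
lie in the same row or in the same column or hold the same symbol. -/
def latinGraph {Q : Type} (L : Q → Q → Q) : SimpleGraph (Q × Q) where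
  Adj p q := p ≠ q ∧ (p.1 = q.1 ∨ p.2 = q.2 ∨ L p.1 p.2 = L q.1 q.2)
  symm := ⟨fun _ _ h => ⟨h.1.symm, h.2.imp Eq.symm (Or.imp Eq.symm Eq.symm)⟩⟩
  loopless := ⟨fun _ h => h.1 rfl⟩

end Pool.Agent.W185.LSQ
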