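import Pool.Agent.W185.LSQ.Loop

/-!
# Sparse base graphs with large components after deleting few vertices
-/

set_option autoImplicit false
set_option linter.unusedSectionVars false

namespace Pool.Agent.W185.LSQ

open Finset Pool.Agent.W185.SRG

theorem num_ineq (q : ℕ) (hq : 1 ≤ q) :
    2 ^ (8 * q) * 2 ^ (8 * q) * (63 * (q * q)) ^ (1024 * q) <
      (8 * q * (8 * q)) ^ (1024 * q) := by
  have h1 : 8 * q * (8 * q) = 64 * (q * q) := by ring
  rw [h1, mul_pow 63, mul_pow 64, ← mul_assoc]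
  apply Nat.mul_lt_mul_of_pos_right
  · have h2 : (2 : ℕ) ^ (8 * q) * 2 ^ (8 * q) * 63 ^ (1024 * q) = (4 * 63 ^ 128) ^ (8 * q) := by
      rw [mul_pow, ← mul_pow 2 2, ← pow_mul 63]
      congr 2
      ring
    have h3 : (64 : ℕ) ^ (1024 * q) = (64 ^ 128) ^ (8 * q) := by
      rw [← pow_mul]
      congr 1
      ring
    rw [h2, h3]
    apply Nat.pow_lt_pow_left
    · norm_num
    · omega
  · have : 0 < q * q := Nat.mul_pos hq hq
    exact pow_pos this _

theorem exists_mixing (q : ℕ) (hq : 1 ≤ q) :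
    ∃ g : Fin (1024 * q) → Fin (8 * q) × Fin (8 * q), ∀ X Y : Finset (Fin (8 * q)),
      q ≤ X.card → q ≤ Y.card → ∃ l, (g l).1 ∈ X ∧ (g l).2 ∈ Y := by
  classical
  by_contra hcon
  push Not at hcon
  let bad : Finset (Fin (8 * q)) × Finset (Fin (8 * q)) →
      Finset (Fin (1024 * q) → Fin (8 * q) × Fin (8 * q)) := fun XY =>
    Fintype.piFinset (fun _ => Finset.univ \ (XY.1 ×ˢ XY.2))
  let P : Finset (Finset (Fin (8 * q)) × Finset (Fin (8 * q))) :=
    Finset.univ.filter fun XY => q ≤ XY.1.card ∧ q ≤ XY.2.card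
  have h1 : (Finset.univ : Finset (Fin (1024 * q) → Fin (8 * q) × Fin (8 * q))) ⊆
      P.biUnion bad := by
    intro g _
    obtain ⟨X, Y, hX, hY, hg⟩ := hcon g
    refine Finset.mem_biUnion.2 ⟨(X, Y), Finset.mem_filter.2 ⟨Finset.mem_univ _, hX, hY⟩, ?_⟩
    refine Fintype.mem_piFinset.2 fun l => ?_
    rw [Finset.mem_sdiff, Finset.mem_product]
    exact ⟨Finset.mem_univ _, fun h => hg l h.1 h.2⟩
  have h2 : ∀ XY ∈ P, (bad XY).card ≤ (63 * (q * q)) ^ (1024 * q) := by
    intro XY hXY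
    obtain ⟨-, hX, hY⟩ := Finset.mem_filter.1 hXY
    have h3 : (bad XY).card = (Finset.univ \ (XY.1 ×ˢ XY.2)).card ^ (1024 * q) := by
      show (Fintype.piFinset (fun _ : Fin (1024 * q) => Finset.univ \ (XY.1 ×ˢ XY.2))).card = _
      rw [Fintype.card_piFinset_const]
    rw [h3]
    apply Nat.pow_le_pow_left
    rw [Finset.card_sdiff_of_subset (Finset.subset_univ _), Finset.card_univ, Finset.card_product,
      Fintype.card_prod, Fintype.card_fin]
    have h4 : q * q ≤ XY.1.card * XY.2.card := Nat.mul_le_mul hX hY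
    have h5 : 8 * q * (8 * q) = 64 * (q * q) := by ring
    omega
  have h3 := (Finset.card_le_card h1).trans Finset.card_biUnion_le
  have h4 := h3.trans (Finset.sum_le_card_nsmul P _ _ h2)
  have h5 : P.card ≤ 2 ^ (8 * q) * 2 ^ (8 * q) := by
    refine (Finset.card_le_univ _).trans (le_of_eq ?_)
    rw [Fintype.card_prod, Fintype.card_finset, Fintype.card_fin]
  rw [Finset.card_univ, Fintype.card_fun, Fintype.card_prod, Fintype.card_fin, Fintype.card_fin,
    smul_eq_mul] at h4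
  have h6 := h4.trans (Nat.mul_le_mul_right _ h5)
  exact absurd (num_ineq q hq) (not_lt.2 h6)

theorem exists_robust (q : ℕ) (hq : 1 ≤ q) :
    ∃ E : Finset (Fin (8 * q) × Fin (8 * q)), (∀ p ∈ E, p.1 < p.2) ∧ E.card ≤ 1024 * q ∧
      Robust (fun ε : E => ε.1) q := by
  classical
  obtain ⟨g, hg⟩ := exists_mixing q hq
  let E : Finset (Fin (8 * q) × Fin (8 * q)) :=
    Finset.univ.filter fun p => p.1 < p.2 ∧ ∃ l, g l = p ∨ g l = (p.2, p.1)
  have hE : ∀ p, p ∈ E ↔ p.1 < p.2 ∧ ∃ l, g l = p ∨ g l = (p.2, p.1) := by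
    intro p
    simp [E]
  refine ⟨E, fun p hp => ((hE p).1 hp).1, ?_, ?_⟩
  · have h1 : E ⊆ Finset.univ.image
        (fun l : Fin (1024 * q) => if (g l).1 < (g l).2 then g l else ((g l).2, (g l).1)) := by
      intro p hp
      obtain ⟨hlt, l, hl | hl⟩ := (hE p).1 hp
      · refine Finset.mem_image.2 ⟨l, Finset.mem_univ _, ?_⟩
        rw [hl, if_pos hlt]
      · refine Finset.mem_image.2 ⟨l, Finset.mem_univ _, ?_⟩
        rw [hl, if_neg (not_lt.2 hlt.le)]
    refine (Finset.card_le_card h1).trans (Finset.card_image_le.trans ?_)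
    rw [Finset.card_univ, Fintype.card_fin]
  · intro B hB
    have hstep : ∀ u v, u ∉ B → v ∉ B → u ≠ v → (∃ l, (g l).1 = u ∧ (g l).2 = v) →
        Step (fun ε : E => ε.1) B u v := by
      intro u v hu hv huv ⟨l, hl1, hl2⟩
      rcases lt_or_gt_of_ne huv with h | h
      · have hp : ((u, v) : Fin (8 * q) × Fin (8 * q)) ∈ E :=
          (hE _).2 ⟨h, l, Or.inl (Prod.ext hl1 hl2)⟩
        exact ⟨hu, hv, ⟨(u, v), hp⟩, Or.inl rfl⟩
      · have hp : ((v, u) : Fin (8 * q) × Fin (8 * q)) ∈ E :=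
          (hE _).2 ⟨h, l, Or.inr (Prod.ext hl1 hl2)⟩
        exact ⟨hu, hv, ⟨(v, u), hp⟩, Or.inr rfl⟩
    let U : Finset (Fin (8 * q)) := Finset.univ \ B
    have hU : 7 * q ≤ U.card := by
      show 7 * q ≤ (Finset.univ \ B).card
      rw [Finset.card_sdiff_of_subset (Finset.subset_univ _), Finset.card_univ, Fintype.card_fin]
      omega
    have hUmem : ∀ v, v ∈ U ↔ v ∉ B := by
      intro v
      simp [U]
    let Cl : Finset (Fin (8 * q)) → Prop := fun X =>
      X ⊆ U ∧ q ≤ X.card ∧ ∀ u ∈ X, ∀ v, Step (fun ε : E => ε.1) B u v → v ∈ X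
    have hne : (Finset.univ.filter fun X => Cl X).Nonempty := by
      refine ⟨U, Finset.mem_filter.2 ⟨Finset.mem_univ _, Finset.Subset.refl _, by omega, ?_⟩⟩
      intro u _ v hs
      exact (hUmem v).2 hs.2.1
    obtain ⟨X, hX, hmin⟩ := Finset.exists_min_image (Finset.univ.filter fun X => Cl X)
      Finset.card hne
    obtain ⟨-, hXU, hXq, hXcl⟩ := Finset.mem_filter.1 hX
    have hYq : (U \ X).card < q := by
      by_contra hcon
      obtain ⟨l, hl1, hl2⟩ := hg X (U \ X) hXq (not_lt.1 hcon)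
      obtain ⟨h1, h2⟩ := Finset.mem_sdiff.1 hl2
      have hne' : (g l).1 ≠ (g l).2 := fun h => h2 (h ▸ hl1)
      exact h2 (hXcl _ hl1 _ (hstep _ _ ((hUmem _).1 (hXU hl1)) ((hUmem _).1 h1) hne'
        ⟨l, rfl, rfl⟩))
    have hXcard : 6 * q < X.card := by
      have h1 := Finset.card_sdiff_add_card_eq_card hXU
      omega
    obtain ⟨b, hb⟩ : X.Nonempty := by
      rw [← Finset.card_pos]
      omega
    let R : Finset (Fin (8 * q)) := Finset.univ.filter fun v => Conn (fun ε : E => ε.1) B b v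
    have hRmem : ∀ v, v ∈ R ↔ Conn (fun ε : E => ε.1) B b v := by
      intro v
      simp [R]
    have hRX : R ⊆ X := by
      intro v hv
      have h1 := (hRmem v).1 hv
      induction h1 with
      | refl => exact hb
      | tail h2 h3 ih => exact hXcl _ (ih ((hRmem _).2 h2)) _ h3
    have hbR : b ∈ R := (hRmem b).2 Relation.ReflTransGen.refl
    refine ⟨b, (hUmem b).1 (hXU hb), ?_⟩
    show 8 * q < 2 * R.card
    by_cases hRq : q ≤ R.card
    · have hRcl : Cl R := by
        refine ⟨hRX.trans hXU, hRq, ?_⟩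
        intro u hu v hs
        exact (hRmem v).2 (((hRmem u).1 hu).tail hs)
      have h1 := hmin R (Finset.mem_filter.2 ⟨Finset.mem_univ _, hRcl⟩)
      omega
    · exfalso
      have h0 := Finset.card_sdiff_add_card_eq_card hRX
      have hcl : Cl (X \ R) := by
        refine ⟨Finset.sdiff_subset.trans hXU, by omega, ?_⟩
        intro u hu v hs
        obtain ⟨hu1, hu2⟩ := Finset.mem_sdiff.1 hu
        refine Finset.mem_sdiff.2 ⟨hXcl u hu1 v hs, fun hv => hu2 ?_⟩
        exact (hRmem u).2 (((hRmem v).1 hv).tail hs.symm)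
      have h1 := hmin (X \ R) (Finset.mem_filter.2 ⟨Finset.mem_univ _, hcl⟩)
      have h2 : 0 < R.card := Finset.card_pos.2 ⟨b, hbR⟩
      omega

end Pool.Agent.W185.LSQ
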