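import Pool.Agent.W185.LSQ.Latin
import Pool.Agent.W185.LSQ.Rigid
import Pool.Agent.W185.LSQ.Base
import Pool.Agent.W185.LSQ.WL
import Pool.Agent.W185.SRG.Main

/-!
# Latin squares need Weisfeiler-Leman dimension of order `log n`
-/

set_option autoImplicit false
set_option linter.unusedSectionVars false

namespace Pool.Agent.W185.LSQ

open Finset Pool.Agent.W185.SRG

section

variable {N : ℕ} {Ed A Γ : Type} [Fintype Ed] [DecidableEq Ed]
  [AddCommGroup A] [Module (ZMod 2) A] [Fintype A] [DecidableEq A]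
  [AddCommGroup Γ] [Module (ZMod 2) Γ] [Fintype Γ] [DecidableEq Γ]

theorem op_isLatin (F : A → A → (Ed → Γ) → Γ) : IsLatinSquare (op F) :=
  ⟨fun _ => Finite.injective_iff_bijective.1 fun _ _ h => op_left F h,
    fun _ => Finite.injective_iff_bijective.1 fun _ _ h => op_right F h⟩

theorem latinGraph_eq (F : A → A → (Ed → Γ) → Γ) : latinGraph (op F) = netGraph (co F) := by
  ext p q
  show (p ≠ q ∧ (p.1 = q.1 ∨ p.2 = q.2 ∨ op F p.1 p.2 = op F q.1 q.2)) ↔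
    (p ≠ q ∧ ∃ i, co F i p = co F i q)
  refine and_congr Iff.rfl ⟨?_, ?_⟩
  · rintro (h | h | h)
    · exact ⟨0, h⟩
    · exact ⟨1, h⟩
    · exact ⟨2, h⟩
  · rintro ⟨i, hi⟩
    fin_cases i
    · exact Or.inl hi
    · exact Or.inr (Or.inl hi)
    · exact Or.inr (Or.inr hi)

theorem exists_nonIso {st : Ed → Fin N × Fin N} {e : Fin N → A}
    {lam : Fin N → A →ₗ[ZMod 2] ZMod 2} (hd : IsDual e lam)
    (hinj : Function.Injective st) (hlt : ∀ ε, (st ε).1 < (st ε).2)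
    (bs : Fin N) (hΓ : Fintype.card Γ = 32) (hQ : 5 ≤ Fintype.card (QQ Ed A Γ))
    (hK : numData (Fintype.card (QQ Ed A Γ)) 32 < 2 ^ (Fintype.card A * Fintype.card A))
    (hA : 2 * (1 + N + N * N) < Fintype.card A) :
    ∃ (h : A → A → Γ) (τ : Γ), IsEmpty (GG st e bs h 0 ≃g GG st e bs h τ) := by
  classical
  by_contra hcon
  have hcon' : ∀ (h : A → A → Γ) (τ : Γ), Nonempty (GG st e bs h 0 ≃g GG st e bs h τ) := by
    intro h τ
    by_contra hne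
    exact hcon ⟨h, τ, not_nonempty_iff.1 hne⟩
  have hex : ∀ h : A → A → Γ, ∃ d : Γ × (Γ × ((QQ Ed A Γ → QQ Ed A Γ) ×
      ((QQ Ed A Γ → QQ Ed A Γ) × (QQ Ed A Γ → QQ Ed A Γ)))), d.1 ≠ d.2.1 ∧
      Function.Injective d.2.2.2.2 ∧ Isot st e bs h d.1 d.2.1 d.2.2.1 d.2.2.2.1 d.2.2.2.2 := by
    intro h
    obtain ⟨τ, τ', g1, g2, g3, h1, h2, h3⟩ := exists_isot (st := st) (e := e) (bs := bs) h
      (by rw [hΓ]; norm_num) hQ (hcon' h)
    exact ⟨(τ, (τ', (g1, (g2, g3)))), h1, h2, h3⟩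
  choose data hd1 hd2 hd3 using hex
  obtain ⟨y, 𝓗, hmem, hy⟩ := exists_large_fiber5 (0 : A → A → Γ) data
  rw [hΓ] at hy
  have hne : 𝓗.Nonempty := by
    rw [Finset.nonempty_iff_ne_empty]
    intro h0
    rw [h0, Finset.card_empty, zero_mul] at hy
    have : 0 < Fintype.card (A → A → Γ) := Fintype.card_pos
    omega
  obtain ⟨h0, hh0⟩ := hne
  have hinj' : Function.Injective y.2.2.2.2 := by
    have := hd2 h0
    rwa [hmem h0 hh0] at this
  have hneq : y.1 ≠ y.2.1 := by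
    have := hd1 h0
    rwa [hmem h0 hh0] at this
  refine hneq (no_isot hd hinj hlt (bs := bs) (g1 := y.2.2.1) (g2 := y.2.2.2.1) hinj'
    𝓗 _ hΓ hy hK hA ?_)
  intro h hh
  have := hd3 h
  rwa [hmem h hh] at this

theorem card_QQ : Fintype.card (QQ Ed A Γ) =
    Fintype.card A * ((Fintype.card Γ) ^ (Fintype.card Ed) * Fintype.card Γ) := by
  rw [Fintype.card_prod, Fintype.card_prod, Fintype.card_fun]

end

theorem numeric (κ b : ℕ) :
    numData (2 ^ (2 * κ + 10 + b) * 2 ^ κ) 32 <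
      2 ^ (2 ^ (2 * κ + 10 + b) * 2 ^ (2 * κ + 10 + b)) := by
  have h1 : ∀ n : ℕ, (2 ^ n) ^ (2 ^ n) * ((2 ^ n) ^ (2 ^ n) * (2 ^ n) ^ (2 ^ n)) =
      2 ^ (3 * (n * 2 ^ n)) := by
    intro n
    rw [← pow_mul, ← pow_add, ← pow_add]
    congr 1
    ring
  unfold numData
  rw [← pow_add, h1]
  have h2 : 32 * (32 * 2 ^ (3 * ((2 * κ + 10 + b + κ) * 2 ^ (2 * κ + 10 + b + κ)))) =
      2 ^ (10 + 3 * ((2 * κ + 10 + b + κ) * 2 ^ (2 * κ + 10 + b + κ))) := by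
    rw [pow_add]
    ring
  rw [h2]
  apply Nat.pow_lt_pow_right (by norm_num)
  have h3 : κ < 2 ^ κ := Nat.lt_two_pow_self
  have h3b : b < 2 ^ b := Nat.lt_two_pow_self
  have h4 : 2 ^ (2 * κ + 10 + b) = 1024 * (2 ^ κ * 2 ^ κ) * 2 ^ b := by
    rw [pow_add, pow_add, two_mul, pow_add]
    ring
  have h5 : 2 ^ (2 * κ + 10 + b + κ) = 2 ^ (2 * κ + 10 + b) * 2 ^ κ := pow_add _ _ _
  rw [h5]
  have h6 : 0 < 2 ^ (2 * κ + 10 + b) := by positivity
  set u := 2 ^ κ with hu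
  set w := 2 ^ b with hw
  set v := 2 ^ (2 * κ + 10 + b) with hv
  have hu1 : 1 ≤ u := by omega
  have hw1 : 1 ≤ w := by omega
  have h7 : 10 + 3 * ((2 * κ + 10 + b + κ) * u) < v := by
    rw [h4]
    have a1 : (2 * κ + 10 + b + κ) ≤ 14 * (u * w) := by nlinarith
    have a2 : (2 * κ + 10 + b + κ) * u ≤ 14 * (u * w) * u := Nat.mul_le_mul_right u a1
    have a3 : 1 ≤ u * u * w := Nat.one_le_iff_ne_zero.2 (by positivity)
    have a4 : 14 * (u * w) * u = 14 * (u * u * w) := by ring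
    have a5 : 1024 * (u * u) * w = 1024 * (u * u * w) := by ring
    rw [a5]
    omega
  calc 10 + 3 * ((2 * κ + 10 + b + κ) * (v * u)) ≤ (10 + 3 * ((2 * κ + 10 + b + κ) * u)) * v := by
        nlinarith
    _ < v * v := Nat.mul_lt_mul_of_pos_right h7 h6

theorem main (k : ℕ) (hk : 1 ≤ k) :
    ∃ (Q : Type) (_ : Fintype Q) (L L' : Q → Q → Q), IsLatinSquare L ∧ IsLatinSquare L' ∧
      Fintype.card Q ≤ 2 ^ (61600 * k) ∧ IsEmpty (latinGraph L ≃g latinGraph L') ∧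
      WLEquivalent k (latinGraph L) (latinGraph L') := by
  obtain ⟨q, hq⟩ : ∃ q : ℕ, q = 2 * k + 2 := ⟨_, rfl⟩
  obtain ⟨E, hlt, hEc, hrob⟩ := exists_robust q (by omega)
  obtain ⟨N, hN⟩ : ∃ N : ℕ, N = 8 * q := ⟨_, rfl⟩
  obtain ⟨κ, hκ⟩ : ∃ κ : ℕ, κ = 5 * E.card + 5 := ⟨_, rfl⟩
  obtain ⟨a, ha⟩ : ∃ a : ℕ, a = 2 * κ + 10 + 2 * N := ⟨_, rfl⟩
  have hNa : 8 * q ≤ a := by omega
  have hΓ : Fintype.card (Fin 5 → ZMod 2) = 32 := by
    rw [Fintype.card_fun, ZMod.card, Fintype.card_fin]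
    norm_num
  have hAc : Fintype.card (Fin a → ZMod 2) = 2 ^ a := by
    rw [Fintype.card_fun, ZMod.card, Fintype.card_fin]
  have hQc : Fintype.card (QQ E (Fin a → ZMod 2) (Fin 5 → ZMod 2)) = 2 ^ a * 2 ^ κ := by
    rw [card_QQ, hΓ, hAc, Fintype.card_coe]
    congr 1
    rw [hκ, pow_add, pow_mul]
    norm_num
  have hQ5 : 5 ≤ Fintype.card (QQ E (Fin a → ZMod 2) (Fin 5 → ZMod 2)) := by
    rw [hQc, ← pow_add]
    have h1 : a + κ < 2 ^ (a + κ) := Nat.lt_two_pow_self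
    omega
  have hK : numData (Fintype.card (QQ E (Fin a → ZMod 2) (Fin 5 → ZMod 2))) 32 <
      2 ^ (Fintype.card (Fin a → ZMod 2) * Fintype.card (Fin a → ZMod 2)) := by
    rw [hQc, hAc, ha]
    exact numeric κ (2 * N)
  have hA3 : 2 * (1 + 8 * q + 8 * q * (8 * q)) < Fintype.card (Fin a → ZMod 2) := by
    rw [hAc, ← hN]
    have h1 : N < 2 ^ N := Nat.lt_two_pow_self
    have h2 : 2 ^ a = 2 ^ (2 * κ) * 2 ^ 10 * (2 ^ N * 2 ^ N) := by
      rw [ha, pow_add, pow_add, two_mul N, pow_add]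
    have h3 : 1 ≤ 2 ^ (2 * κ) := Nat.one_le_two_pow
    have h4 : N * N ≤ 2 ^ N * 2 ^ N := Nat.mul_le_mul h1.le h1.le
    have h5 : 1 ≤ 2 ^ N := Nat.one_le_two_pow
    have h6 : 2 ^ N ≤ 2 ^ N * 2 ^ N := Nat.le_mul_of_pos_right _ (by omega)
    have h7 : 2 ^ 10 * (2 ^ N * 2 ^ N) ≤ 2 ^ a := by
      rw [h2, mul_assoc]
      exact Nat.le_mul_of_pos_left _ (by omega)
    have h8 : (2 : ℕ) ^ 10 = 1024 := by norm_num
    rw [h8] at h7
    omega
  obtain ⟨bs, hbs⟩ := hrob ∅ (by simp)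
  have hd : IsDual (stdE hNa) (fun i => LinearMap.proj (Fin.castLE hNa i)) := stdE_isDual hNa
  have hinj : Function.Injective (fun ε : E => ε.1) := Subtype.val_injective
  obtain ⟨h, τ, hiso⟩ := exists_nonIso (Γ := Fin 5 → ZMod 2) hd hinj
    (fun ε => hlt ε.1 ε.2) bs hΓ hQ5 hK hA3
  refine ⟨QQ E (Fin a → ZMod 2) (Fin 5 → ZMod 2), inferInstance,
    op (FF (fun ε : E => ε.1) (stdE hNa) bs h 0), op (FF (fun ε : E => ε.1) (stdE hNa) bs h τ),
    op_isLatin _, op_isLatin _, ?_, ?_, ?_⟩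
  · rw [hQc, ← pow_add]
    apply Nat.pow_le_pow_right (by norm_num)
    omega
  · rw [latinGraph_eq, latinGraph_eq]
    exact hiso
  · rw [latinGraph_eq, latinGraph_eq]
    exact wlEquivalent_GG hbs 0 τ hrob hd.linearIndependent (by omega) h

end Pool.Agent.W185.LSQ
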