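import Pool.Agent.W185.LSQ.Loop
import Pool.Agent.W185.SRG.Algebra

/-!
# The final algebra for a sparse base graph
-/

set_option autoImplicit false
set_option linter.unusedSectionVars false

namespace Pool.Agent.W185.LSQ

open Finset Pool.Agent.W185.SRG

section

variable {N : ℕ} {Ed A Γ : Type} [Fintype Ed] [DecidableEq Ed]
  [AddCommGroup A] [Module (ZMod 2) A] [Fintype A] [DecidableEq A]
  [AddCommGroup Γ] [Module (ZMod 2) Γ] [Fintype Γ] [DecidableEq Γ]

theorem psum_edge {st : Ed → Fin N × Fin N} {e : Fin N → A}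
    {lam : Fin N → A →ₗ[ZMod 2] ZMod 2} (hd : IsDual e lam) (hinj : Function.Injective st)
    (hlt : ∀ ε, (st ε).1 < (st ε).2) (ε : Ed) (c : Ed → Γ) :
    psum st e (e (st ε).1 + e (st ε).2) c = c ε := by
  unfold psum
  rw [Finset.sum_eq_single ε]
  · rw [if_pos rfl]
  · intro ε' _ hε'
    rw [if_neg]
    intro h
    have h2 := hd.pair (hlt ε) (hlt ε') h
    exact hε' (hinj (Prod.ext h2.1 h2.2)).symm
  · intro h
    exact absurd (Finset.mem_univ ε) h

theorem phi_default (st : Ed → Fin N × Fin N) (e : Fin N → A) {x y : A}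
    (h1 : y ≠ 0 ∨ x ∉ TT e) (h2 : x ≠ 0 ∨ y ∉ TT e)
    (c : Ed → Γ) : phi st e x y c = 0 := by
  have hp : ∀ u, u ∉ TT e → psum st e u c = 0 := by
    intro u hu
    refine Finset.sum_eq_zero fun ε _ => ?_
    rw [if_neg]
    rintro rfl
    exact hu (pair_mem_TT e _ _)
  unfold phi
  have e1 : (if y = 0 then psum st e x c + ∑ i, (if x = e i then inc st i c else 0) else 0)
      = 0 := by
    by_cases hy : y = 0
    · have hx : x ∉ TT e := h1.resolve_left fun h => h hy
      rw [if_pos hy, hp x hx]
      have a2 : ∑ i, (if x = e i then inc st i c else 0) = 0 := by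
        refine Finset.sum_eq_zero fun i _ => ?_
        rw [if_neg]
        rintro rfl
        exact hx (single_mem_TT e i)
      rw [a2, add_zero]
    · rw [if_neg hy]
  have e2 : (if x = 0 then psum st e y c else 0) = 0 := by
    by_cases hx : x = 0
    · have hy : y ∉ TT e := h2.resolve_left fun h => h hx
      rw [if_pos hx, hp y hy]
    · rw [if_neg hx]
  rw [e1, e2, add_zero]

theorem no_gauge {st : Ed → Fin N × Fin N} {e : Fin N → A}
    {lam : Fin N → A →ₗ[ZMod 2] ZMod 2} (hd : IsDual e lam)
    (hinj : Function.Injective st) (hlt : ∀ ε, (st ε).1 < (st ε).2)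
    (bs : Fin N) (γ : Γ) (hA : 2 * (1 + N + N * N) < Fintype.card A)
    (m1 m2 m3 : A → (Ed → Γ)) (s1 s2 s3 : A → Γ)
    (hm : ∀ x y, m3 (x + y) = m1 x + m2 y)
    (hs : ∀ x y, s1 x + s2 y + s3 (x + y) =
      phi st e x y (m1 x) + (if x = e bs ∧ y = 0 then γ else 0)) : γ = 0 := by
  -- the default cells
  have hdef : ∀ x y, (y ≠ 0 ∨ x ∉ TT e) → (x ≠ 0 ∨ y ∉ TT e) →
      s1 x + s2 y + s3 (x + y) = 0 := by
    intro x y h1 h2
    rw [hs x y, phi_default st e h1 h2, if_neg, add_zero]
    rintro ⟨rfl, hy⟩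
    rcases h1 with h | h
    · exact h hy
    · exact h (single_mem_TT e bs)
  -- all cells
  have hall : ∀ x y, phi st e x y (m1 x) + (if x = e bs ∧ y = 0 then γ else 0) = 0 := by
    intro x y
    rw [← hs x y]
    obtain ⟨d, hd1, hd2⟩ : ∃ d, x + d ∉ TT e ∧ y + d ∉ TT e := by
      by_contra hcon
      push Not at hcon
      have h1 : (Finset.univ : Finset A) ⊆
          (TT e).image (fun t => t + x) ∪ (TT e).image (fun t => t + y) := by
        intro d _
        by_cases h : x + d ∈ TT e
        · refine Finset.mem_union_left _ (Finset.mem_image.2 ⟨x + d, h, ?_⟩)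
          rw [add_comm x d, add_assoc, two_self, add_zero]
        · refine Finset.mem_union_right _ (Finset.mem_image.2 ⟨y + d, hcon d h, ?_⟩)
          rw [add_comm y d, add_assoc, two_self, add_zero]
      have h2 := (Finset.card_le_card h1).trans (Finset.card_union_le _ _)
      have h3 : ((TT e).image (fun t => t + x)).card ≤ (TT e).card := Finset.card_image_le
      have h4 : ((TT e).image (fun t => t + y)).card ≤ (TT e).card := Finset.card_image_le
      have h5 := card_TT e
      rw [Finset.card_univ] at h2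
      omega
    have hx0 : x + d ≠ 0 := fun h => hd1 (h ▸ zero_mem_TT e)
    have hy0 : y + d ≠ 0 := fun h => hd2 (h ▸ zero_mem_TT e)
    have c1 := hdef (x + d) y (Or.inr hd1) (Or.inl hx0)
    have c2 := hdef x (y + d) (Or.inl hy0) (Or.inr hd2)
    have c3 := hdef (x + d) (y + d) (Or.inl hy0) (Or.inl hx0)
    have f1 : x + d + y = x + (y + d) := by abel
    have f2 : x + d + (y + d) = x + y := by
      calc x + d + (y + d) = x + y + (d + d) := by abel
        _ = x + y := by rw [two_self, add_zero]
    rw [f1] at c1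
    rw [f2] at c3
    calc s1 x + s2 y + s3 (x + y)
        = (s1 x + s2 y + s3 (x + y)) + 0 + 0 + 0 := by simp
      _ = (s1 x + s2 y + s3 (x + y)) + (s1 (x + d) + s2 y + s3 (x + (y + d))) +
          (s1 x + s2 (y + d) + s3 (x + (y + d))) + (s1 (x + d) + s2 (y + d) + s3 (x + y)) := by
            rw [c1, c2, c3]
      _ = (s1 x + s1 x) + (s2 y + s2 y) + (s3 (x + y) + s3 (x + y)) +
          (s1 (x + d) + s1 (x + d)) + (s2 (y + d) + s2 (y + d)) +
          (s3 (x + (y + d)) + s3 (x + (y + d))) := by abel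
      _ = 0 := by simp [two_self]
  -- `m1` is affine
  have haff : ∀ x y, m1 (x + y) = m1 x + m1 y + m1 0 := by
    intro x y
    have a1 := hm x y
    have a2 := hm (x + y) 0
    have a3 := hm y 0
    have a4 := hm 0 y
    rw [add_zero] at a2 a3
    rw [zero_add] at a4
    have b1 : m1 x + m2 y = m1 (x + y) + m2 0 := a1.symm.trans a2
    have b2 : m1 y + m2 0 = m1 0 + m2 y := a3.symm.trans a4
    have b3 : m1 (x + y) = m1 x + m2 y + m2 0 := add_eq_of_two b1.symm
    have b4 : m2 y = m1 0 + (m1 y + m2 0) := by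
      rw [b2, ← add_assoc, two_self, zero_add]
    rw [b3, b4]
    calc m1 x + (m1 0 + (m1 y + m2 0)) + m2 0 = m1 x + m1 y + m1 0 + (m2 0 + m2 0) := by abel
      _ = _ := by rw [two_self, add_zero]
  -- the values at the edges
  have h0 : ∀ ε, m1 0 ε = 0 := by
    intro ε
    have h1 := hall 0 (e (st ε).1 + e (st ε).2)
    have hne : e (st ε).1 + e (st ε).2 ≠ 0 := hd.add_ne_zero (hlt ε).ne
    unfold phi at h1
    rw [if_neg hne, if_pos rfl, zero_add, psum_edge hd hinj hlt, if_neg, add_zero] at h1
    · exact h1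
    · rintro ⟨h2, -⟩
      exact hd.ne_zero bs h2.symm
  have hT : ∀ ε, m1 (e (st ε).1) ε = m1 (e (st ε).2) ε := by
    intro ε
    have h1 := hall (e (st ε).1 + e (st ε).2) 0
    have hne : e (st ε).1 + e (st ε).2 ≠ 0 := hd.add_ne_zero (hlt ε).ne
    have h2 : ∑ i, (if e (st ε).1 + e (st ε).2 = e i then
        inc st i (m1 (e (st ε).1 + e (st ε).2)) else 0) = 0 := by
      refine Finset.sum_eq_zero fun i _ => ?_
      rw [if_neg]
      intro h
      exact hd.ne_add (hlt ε).ne h.symm
    unfold phi at h1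
    rw [if_pos rfl, if_neg hne, add_zero, psum_edge hd hinj hlt, h2, add_zero, if_neg,
      add_zero, haff, Pi.add_apply, Pi.add_apply, h0, add_zero] at h1
    · exact eq_of_add_eq_zero_two h1
    · rintro ⟨h3, -⟩
      exact hd.ne_add (hlt ε).ne h3.symm
  have hrow : ∀ i, inc st i (m1 (e i)) + (if i = bs then γ else 0) = 0 := by
    intro i
    have h1 := hall (e i) 0
    have h2 : psum st e (e i) (m1 (e i)) = 0 := by
      refine Finset.sum_eq_zero fun ε _ => ?_
      rw [if_neg]
      intro h
      exact hd.ne_add (hlt ε).ne h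
    have h3 : ∑ i', (if e i = e i' then inc st i' (m1 (e i)) else 0) = inc st i (m1 (e i)) := by
      rw [Finset.sum_eq_single i]
      · rw [if_pos rfl]
      · intro i' _ hi'
        rw [if_neg]
        intro h
        exact hi' (hd.inj h).symm
      · intro h
        exact absurd (Finset.mem_univ i) h
    unfold phi at h1
    rw [if_pos rfl, if_neg (hd.ne_zero i), add_zero, h2, h3, zero_add] at h1
    by_cases hi : i = bs
    · rw [if_pos hi]
      rwa [if_pos ⟨congrArg e hi, rfl⟩] at h1
    · rw [if_neg hi]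
      rwa [if_neg (fun h => hi (hd.inj h.1))] at h1
  have hsum : ∑ i, (inc st i (m1 (e i)) + (if i = bs then γ else 0)) = 0 :=
    Finset.sum_eq_zero fun i _ => hrow i
  have hinc : ∑ i, inc st i (m1 (e i)) = 0 := by
    unfold inc
    rw [Finset.sum_comm]
    refine Finset.sum_eq_zero fun ε _ => ?_
    rw [Finset.sum_add_distrib, Finset.sum_ite_eq, Finset.sum_ite_eq,
      if_pos (Finset.mem_univ _), if_pos (Finset.mem_univ _), hT ε, two_self]
  rw [Finset.sum_add_distrib, hinc, zero_add, Finset.sum_ite_eq',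
    if_pos (Finset.mem_univ _)] at hsum
  exact hsum

end

end Pool.Agent.W185.LSQ
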