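import Pool.Agent.W185.SRG.Loop

/-!
# Loops with a sparse base graph

As in `Pool.Agent.W185.SRG.Loop`, with one variable for every edge of a base graph with edge set
`Ed` and end points `st : Ed → Fin N × Fin N`.
-/

set_option autoImplicit false
set_option linter.unusedSectionVars false

namespace Pool.Agent.W185.LSQ

open Finset Pool.Agent.W185.SRG

section

variable {N : ℕ} {Ed A Γ : Type} [Fintype Ed] [DecidableEq Ed]
  [AddCommGroup A] [Module (ZMod 2) A] [Fintype A] [DecidableEq A]
  [AddCommGroup Γ] [Module (ZMod 2) Γ] [Fintype Γ] [DecidableEq Γ]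

/-- The underlying set of the loops. -/
abbrev QQ (Ed A Γ : Type) : Type := A × ((Ed → Γ) × Γ)

/-- The product with structure function `F`. -/
def op (F : A → A → (Ed → Γ) → Γ) (R C : QQ Ed A Γ) : QQ Ed A Γ :=
  (R.1 + C.1, (R.2.1 + C.2.1, R.2.2 + C.2.2 + F R.1 C.1 R.2.1))

/-- The three coordinate functions of the Latin square. -/
def co (F : A → A → (Ed → Γ) → Γ) : Fin 3 → QQ Ed A Γ × QQ Ed A Γ → QQ Ed A Γ
  | 0, p => p.1
  | 1, p => p.2
  | 2, p => op F p.1 p.2

theorem op_left (F : A → A → (Ed → Γ) → Γ) {R C C' : QQ Ed A Γ} (h : op F R C = op F R C') :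
    C = C' := by
  have h1 : R.1 + C.1 = R.1 + C'.1 := congrArg Prod.fst h
  have h2 : R.2.1 + C.2.1 = R.2.1 + C'.2.1 := congrArg (fun q => q.2.1) h
  have h3 : R.2.2 + C.2.2 + F R.1 C.1 R.2.1 = R.2.2 + C'.2.2 + F R.1 C'.1 R.2.1 :=
    congrArg (fun q => q.2.2) h
  have e1 : C.1 = C'.1 := add_left_cancel h1
  have e2 : C.2.1 = C'.2.1 := add_left_cancel h2
  rw [e1] at h3
  have e3 : C.2.2 = C'.2.2 := add_left_cancel (add_right_cancel h3)
  exact Prod.ext e1 (Prod.ext e2 e3)

theorem op_right (F : A → A → (Ed → Γ) → Γ) {R R' C : QQ Ed A Γ} (h : op F R C = op F R' C) :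
    R = R' := by
  have h1 : R.1 + C.1 = R'.1 + C.1 := congrArg Prod.fst h
  have h2 : R.2.1 + C.2.1 = R'.2.1 + C.2.1 := congrArg (fun q => q.2.1) h
  have h3 : R.2.2 + C.2.2 + F R.1 C.1 R.2.1 = R'.2.2 + C.2.2 + F R'.1 C.1 R'.2.1 :=
    congrArg (fun q => q.2.2) h
  have e1 : R.1 = R'.1 := add_right_cancel h1
  have e2 : R.2.1 = R'.2.1 := add_right_cancel h2
  rw [e1, e2] at h3
  have e3 : R.2.2 = R'.2.2 := add_right_cancel (add_right_cancel h3)
  exact Prod.ext e1 (Prod.ext e2 e3)

theorem co_isNet (F : A → A → (Ed → Γ) → Γ) : IsNet (co F) := by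
  have key : ∀ i j : Fin 3, i ≠ j → ∀ p q, co F i p = co F i q → co F j p = co F j q → p = q := by
    intro i j hij p q h1 h2
    fin_cases i <;> fin_cases j
    · exact absurd rfl hij
    · exact Prod.ext h1 h2
    · have e : p.1 = q.1 := h1
      have h3 : op F p.1 p.2 = op F q.1 q.2 := h2
      rw [e] at h3
      exact Prod.ext e (op_left F h3)
    · exact Prod.ext h2 h1
    · exact absurd rfl hij
    · have e : p.2 = q.2 := h1
      have h3 : op F p.1 p.2 = op F q.1 q.2 := h2
      rw [e] at h3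
      exact Prod.ext (op_right F h3) e
    · have e : p.1 = q.1 := h2
      have h3 : op F p.1 p.2 = op F q.1 q.2 := h1
      rw [e] at h3
      exact Prod.ext e (op_left F h3)
    · have e : p.2 = q.2 := h2
      have h3 : op F p.1 p.2 = op F q.1 q.2 := h1
      rw [e] at h3
      exact Prod.ext (op_right F h3) e
    · exact absurd rfl hij
  intro i j hij
  refine Finite.injective_iff_bijective.1 fun p q h => ?_
  exact key i j hij p q (congrArg Prod.fst h) (congrArg Prod.snd h)

/-- The sum of the edge variables at the vertex `i`. -/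
def inc (st : Ed → Fin N × Fin N) (i : Fin N) (c : Ed → Γ) : Γ :=
  ∑ ε, ((if (st ε).1 = i then c ε else 0) + (if (st ε).2 = i then c ε else 0))

/-- The sum of the edge variables of the edges with `e`-sum `u`. -/
def psum (st : Ed → Fin N × Fin N) (e : Fin N → A) (u : A) (c : Ed → Γ) : Γ :=
  ∑ ε, if u = e (st ε).1 + e (st ε).2 then c ε else 0

theorem ite_add_ite' (P : Prop) [Decidable P] (a b : Γ) : (if P then a + b else 0) =
    (if P then a else 0) + (if P then b else 0) := by
  by_cases h : P <;> simp [h]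

theorem inc_add (st : Ed → Fin N × Fin N) (i : Fin N) (c d : Ed → Γ) :
    inc st i (c + d) = inc st i c + inc st i d := by
  unfold inc
  rw [← Finset.sum_add_distrib]
  refine Finset.sum_congr rfl fun ε _ => ?_
  rw [Pi.add_apply, ite_add_ite', ite_add_ite']
  abel

theorem psum_add (st : Ed → Fin N × Fin N) (e : Fin N → A) (u : A) (c d : Ed → Γ) :
    psum st e u (c + d) = psum st e u c + psum st e u d := by
  unfold psum
  rw [← Finset.sum_add_distrib]
  refine Finset.sum_congr rfl fun ε _ => ?_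
  rw [Pi.add_apply, ite_add_ite']

theorem inc_zero (st : Ed → Fin N × Fin N) (i : Fin N) : inc st i (0 : Ed → Γ) = 0 := by
  simp [inc]

theorem psum_zero (st : Ed → Fin N × Fin N) (e : Fin N → A) (u : A) :
    psum st e u (0 : Ed → Γ) = 0 := by
  simp [psum]

/-- The fixed bi-indexed family of homomorphisms. -/
def phi (st : Ed → Fin N × Fin N) (e : Fin N → A) (x y : A) (c : Ed → Γ) : Γ :=
  (if y = 0 then psum st e x c + ∑ i, (if x = e i then inc st i c else 0) else 0) +
  (if x = 0 then psum st e y c else 0)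

theorem phi_add (st : Ed → Fin N × Fin N) (e : Fin N → A) (x y : A) (c d : Ed → Γ) :
    phi st e x y (c + d) = phi st e x y c + phi st e x y d := by
  unfold phi
  simp only [inc_add, psum_add, ite_add_ite', Finset.sum_add_distrib]
  abel

/-- The structure function of the loop with parameters `h` and `τ`. -/
def FF (st : Ed → Fin N × Fin N) (e : Fin N → A) (bs : Fin N) (h : A → A → Γ) (τ : Γ) (x y : A)
    (c : Ed → Γ) : Γ :=
  phi st e x y c + h x y + (if x = e bs ∧ y = 0 then τ else 0)

/-- The linear maps that move the defect from `bs` to `b`. -/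
def IsM (st : Ed → Fin N × Fin N) (e : Fin N → A) (bs : Fin N) (γ : Γ) (b : Fin N)
    (M : A →ₗ[ZMod 2] (Ed → Γ)) : Prop :=
  (∀ ε, M (e (st ε).1 + e (st ε).2) ε = 0) ∧
  ∀ i, inc st i (M (e i)) = (if i = bs then γ else 0) + (if i = b then γ else 0)

theorem isM_zero (st : Ed → Fin N × Fin N) (e : Fin N → A) (bs : Fin N) (γ : Γ) :
    IsM st e bs γ bs 0 := by
  constructor
  · intro ε
    rfl
  · intro i
    by_cases h : i = bs
    · simp [inc_zero, h, two_self]
    · simp [inc_zero, h]

theorem phi_isM {st : Ed → Fin N × Fin N} {e : Fin N → A} {bs : Fin N} {γ : Γ} {b : Fin N}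
    {M : A →ₗ[ZMod 2] (Ed → Γ)}
    (hM : IsM st e bs γ b M) (he : Function.Injective e) (x y : A) (hxy : x ≠ e b) :
    phi st e x y (M x) = if x = e bs ∧ y = 0 then γ else 0 := by
  unfold phi
  have h1 : (if x = 0 then psum st e y (M x) else 0) = 0 := by
    by_cases h : x = 0
    · rw [if_pos h, h, map_zero, psum_zero]
    · rw [if_neg h]
  have h2 : psum st e x (M x) = 0 := by
    refine Finset.sum_eq_zero fun ε _ => ?_
    by_cases h : x = e (st ε).1 + e (st ε).2
    · rw [if_pos h, h, hM.1 ε]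
    · rw [if_neg h]
  have h3 : ∑ i, (if x = e i then inc st i (M x) else 0) = if x = e bs then γ else 0 := by
    by_cases h : x = e bs
    · rw [if_pos h, Finset.sum_eq_single bs]
      · rw [if_pos h, h, hM.2 bs, if_pos rfl, if_neg, add_zero]
        rintro rfl
        exact hxy h
      · intro i _ hi
        rw [if_neg]
        intro h'
        exact hi (he (h'.symm.trans h))
      · intro h'
        exact absurd (Finset.mem_univ bs) h'
    · rw [if_neg h]
      refine Finset.sum_eq_zero fun i _ => ?_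
      by_cases h' : x = e i
      · rw [if_pos h', h', hM.2 i, if_neg, if_neg, add_zero]
        · rintro rfl
          exact hxy h'
        · rintro rfl
          exact h h'
      · rw [if_neg h']
  rw [h1, h2, h3]
  by_cases hy : y = 0 <;> by_cases hx : x = e bs <;> simp [hx, hy]

theorem FF_isM {st : Ed → Fin N × Fin N} {e : Fin N → A} {bs : Fin N} {τ τ' : Γ} {b : Fin N}
    {M : A →ₗ[ZMod 2] (Ed → Γ)}
    (hM : IsM st e bs (τ + τ') b M) (he : Function.Injective e) (h : A → A → Γ) (x y : A)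
    (hxy : x ≠ e b) (c : Ed → Γ) :
    FF st e bs h τ' x y (c + M x) = FF st e bs h τ x y c := by
  unfold FF
  rw [phi_add, phi_isM hM he x y hxy]
  by_cases h' : x = e bs ∧ y = 0
  · rw [if_pos h', if_pos h', if_pos h']
    calc phi st e x y c + (τ + τ') + h x y + τ' =
        phi st e x y c + h x y + τ + (τ' + τ') := by abel
      _ = _ := by rw [two_self, add_zero]
  · simp only [if_neg h', add_zero]

/-- The shear of the loop. -/
def sh (M : A →ₗ[ZMod 2] (Ed → Γ)) (q : QQ Ed A Γ) : QQ Ed A Γ := (q.1, (q.2.1 + M q.1, q.2.2))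

theorem sh_sh (M : A →ₗ[ZMod 2] (Ed → Γ)) (q : QQ Ed A Γ) : sh M (sh M q) = q := by
  refine Prod.ext rfl (Prod.ext ?_ rfl)
  show q.2.1 + M q.1 + M q.1 = q.2.1
  rw [add_assoc, two_self, add_zero]

theorem sh_inj (M : A →ₗ[ZMod 2] (Ed → Γ)) : Function.Injective (sh M) := by
  intro p q h
  rw [← sh_sh M p, h, sh_sh]

/-- The shear of the cells. -/
def sh2 (M : A →ₗ[ZMod 2] (Ed → Γ)) (p : QQ Ed A Γ × QQ Ed A Γ) : QQ Ed A Γ × QQ Ed A Γ :=
  (sh M p.1, sh M p.2)

theorem sh2_sh2 (M : A →ₗ[ZMod 2] (Ed → Γ)) (p : QQ Ed A Γ × QQ Ed A Γ) :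
    sh2 M (sh2 M p) = p :=
  Prod.ext (sh_sh M _) (sh_sh M _)

theorem sh2_inj (M : A →ₗ[ZMod 2] (Ed → Γ)) : Function.Injective (sh2 M) := by
  intro p q h
  rw [← sh2_sh2 M p, h, sh2_sh2]

theorem co_sh2 {st : Ed → Fin N × Fin N} {e : Fin N → A} {bs : Fin N} {τ τ' : Γ} {b : Fin N}
    {M : A →ₗ[ZMod 2] (Ed → Γ)}
    (hM : IsM st e bs (τ + τ') b M) (he : Function.Injective e) (h : A → A → Γ)
    (p : QQ Ed A Γ × QQ Ed A Γ) (hp : p.1.1 ≠ e b) (l : Fin 3) :
    co (FF st e bs h τ') l (sh2 M p) = sh M (co (FF st e bs h τ) l p) := by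
  fin_cases l
  · rfl
  · rfl
  · show op (FF st e bs h τ') (sh M p.1) (sh M p.2) = sh M (op (FF st e bs h τ) p.1 p.2)
    refine Prod.ext rfl (Prod.ext ?_ ?_)
    · show p.1.2.1 + M p.1.1 + (p.2.2.1 + M p.2.1) = p.1.2.1 + p.2.2.1 + M (p.1.1 + p.2.1)
      rw [map_add]
      abel
    · show p.1.2.2 + p.2.2.2 + FF st e bs h τ' p.1.1 p.2.1 (p.1.2.1 + M p.1.1) =
        p.1.2.2 + p.2.2.2 + FF st e bs h τ p.1.1 p.2.1 p.1.2.1
      rw [FF_isM hM he h p.1.1 p.2.1 hp]

/-- The components in `A` of a tuple of cells. -/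
def comps {k : ℕ} (S : Fin k → QQ Ed A Γ × QQ Ed A Γ) : Fin k ⊕ Fin k → A :=
  Sum.elim (fun i => (S i).1.1) (fun i => (S i).2.1)

/-- The graph with parameters `h` and `τ`. -/
def GG (st : Ed → Fin N × Fin N) (e : Fin N → A) (bs : Fin N) (h : A → A → Γ) (τ : Γ) :
    SimpleGraph (QQ Ed A Γ × QQ Ed A Γ) :=
  netGraph (co (FF st e bs h τ))

open Classical in
/-- The base vertices blocked by a subspace. -/
noncomputable def blocked (e : Fin N → A) (W : Submodule (ZMod 2) A) : Finset (Fin N) :=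
  Finset.univ.filter fun b => e b ∈ W

theorem mem_blocked {e : Fin N → A} {W : Submodule (ZMod 2) A} {b : Fin N} :
    b ∈ blocked e W ↔ e b ∈ W := by
  simp [blocked]

theorem card_blocked {e : Fin N → A} (hli : LinearIndependent (ZMod 2) e)
    (W : Submodule (ZMod 2) A) : (blocked e W).card ≤ Module.finrank (ZMod 2) W := by
  have h1 : LinearIndependent (ZMod 2) (fun b : blocked e W => e b.1) :=
    hli.comp _ Subtype.val_injective
  have h2 : Submodule.span (ZMod 2) (Set.range fun b : blocked e W => e b.1) ≤ W := by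
    rw [Submodule.span_le]
    rintro _ ⟨b, rfl⟩
    exact mem_blocked.1 b.2
  have h3 := Submodule.finrank_mono h2
  rw [finrank_span_eq_card h1, Fintype.card_coe] at h3
  exact h3

theorem blocked_mono {e : Fin N → A} {W W' : Submodule (ZMod 2) A} (h : W ≤ W') :
    blocked e W ⊆ blocked e W' := fun _ hb => mem_blocked.2 (h (mem_blocked.1 hb))

/-- One step in the base graph avoiding `B`. -/
def Step (st : Ed → Fin N × Fin N) (B : Finset (Fin N)) (u v : Fin N) : Prop :=
  u ∉ B ∧ v ∉ B ∧ ∃ ε, st ε = (u, v) ∨ st ε = (v, u)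

/-- Reachability in the base graph without `B`. -/
def Conn (st : Ed → Fin N × Fin N) (B : Finset (Fin N)) : Fin N → Fin N → Prop :=
  Relation.ReflTransGen (Step st B)

theorem Step.symm {st : Ed → Fin N × Fin N} {B : Finset (Fin N)} {u v : Fin N}
    (h : Step st B u v) : Step st B v u :=
  ⟨h.2.1, h.1, h.2.2.imp fun _ h' => h'.symm⟩

theorem Conn.symm {st : Ed → Fin N × Fin N} {B : Finset (Fin N)} {u v : Fin N}
    (h : Conn st B u v) : Conn st B v u := by
  induction h with
  | refl => exact Relation.ReflTransGen.refl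
  | tail _ hs ih => exact Relation.ReflTransGen.head hs.symm ih

theorem Conn.mono {st : Ed → Fin N × Fin N} {B B' : Finset (Fin N)} (hB : B ⊆ B') {u v : Fin N}
    (h : Conn st B' u v) : Conn st B u v := by
  induction h with
  | refl => exact Relation.ReflTransGen.refl
  | tail _ hs ih =>
    exact Relation.ReflTransGen.tail ih
      ⟨fun hb => hs.1 (hB hb), fun hb => hs.2.1 (hB hb), hs.2.2⟩

open Classical in
/-- The vertex `b` lies in the large component of the base graph without `B`. -/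
def Big (st : Ed → Fin N × Fin N) (B : Finset (Fin N)) (b : Fin N) : Prop :=
  b ∉ B ∧ N < 2 * (Finset.univ.filter fun v => Conn st B b v).card

theorem Big.mono {st : Ed → Fin N × Fin N} {B B' : Finset (Fin N)} (hB : B ⊆ B') {b : Fin N}
    (h : Big st B' b) : Big st B b := by
  classical
  refine ⟨fun hb => h.1 (hB hb), lt_of_lt_of_le h.2 (Nat.mul_le_mul_left 2 ?_)⟩
  refine Finset.card_le_card fun v hv => ?_
  rw [Finset.mem_filter] at hv ⊢
  exact ⟨hv.1, Conn.mono hB hv.2⟩

theorem Big.conn {st : Ed → Fin N × Fin N} {B : Finset (Fin N)} {b b' : Fin N}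
    (h : Big st B b) (h' : Big st B b') : Conn st B b b' := by
  classical
  by_contra hcon
  have hdis : Disjoint (Finset.univ.filter fun v => Conn st B b v)
      (Finset.univ.filter fun v => Conn st B b' v) := by
    rw [Finset.disjoint_left]
    intro v hv hv'
    exact hcon ((Finset.mem_filter.1 hv).2.trans (Finset.mem_filter.1 hv').2.symm)
  have h1 := Finset.card_union_of_disjoint hdis
  have h2 := Finset.card_le_univ ((Finset.univ.filter fun v => Conn st B b v) ∪
      (Finset.univ.filter fun v => Conn st B b' v))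
  rw [Fintype.card_fin] at h2
  have h3 := h.2
  have h4 := h'.2
  omega

/-- The linear map `x ↦ f x • (γ at the edge `ε0`)`. -/
def zmap (f : A →ₗ[ZMod 2] ZMod 2) (γ : Γ) (ε0 : Ed) : A →ₗ[ZMod 2] (Ed → Γ) where
  toFun x := fun ε => f x • (if ε = ε0 then γ else 0)
  map_add' x y := by
    funext ε
    simp only [map_add, add_smul, Pi.add_apply]
  map_smul' a x := by
    funext ε
    simp only [map_smul, smul_eq_mul, mul_smul, Pi.smul_apply, RingHom.id_apply]

theorem inc_zmap (st : Ed → Fin N × Fin N) (f : A →ₗ[ZMod 2] ZMod 2) (γ : Γ) (ε0 : Ed)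
    (i : Fin N) (x : A) :
    inc st i (zmap f γ ε0 x) = (if (st ε0).1 = i then f x • γ else 0) +
      (if (st ε0).2 = i then f x • γ else 0) := by
  unfold inc
  rw [Finset.sum_eq_single ε0]
  · have : zmap f γ ε0 x ε0 = f x • γ := by
      show f x • (if ε0 = ε0 then γ else 0) = f x • γ
      rw [if_pos rfl]
    rw [this]
  · intro ε _ hε
    have : zmap f γ ε0 x ε = 0 := by
      show f x • (if ε = ε0 then γ else 0) = 0
      rw [if_neg hε, smul_zero]
    rw [this]
    simp
  · intro h
    exact absurd (Finset.mem_univ ε0) h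

theorem move_step {st : Ed → Fin N × Fin N} {e : Fin N → A} {bs : Fin N} {γ : Γ}
    (W : Submodule (ZMod 2) A) {u v : Fin N} (hstep : Step st (blocked e W) u v)
    {M : A →ₗ[ZMod 2] (Ed → Γ)} (hM : IsM st e bs γ u M) :
    ∃ M' : A →ₗ[ZMod 2] (Ed → Γ), IsM st e bs γ v M' ∧ ∀ x ∈ W, M' x = M x := by
  obtain ⟨hu, hv, ε0, hε0⟩ := hstep
  rw [mem_blocked] at hu hv
  obtain ⟨f, hfu, hfv, hfW⟩ := exists_functional W hu hv
  have hends : (st ε0).1 = u ∧ (st ε0).2 = v ∨ (st ε0).1 = v ∧ (st ε0).2 = u := by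
    rcases hε0 with h | h
    · left
      rw [h]
      exact ⟨rfl, rfl⟩
    · right
      rw [h]
      exact ⟨rfl, rfl⟩
  refine ⟨M + zmap f γ ε0, ⟨?_, ?_⟩, ?_⟩
  · intro ε
    rw [LinearMap.add_apply, Pi.add_apply, hM.1 ε, zero_add]
    show f (e (st ε).1 + e (st ε).2) • (if ε = ε0 then γ else 0) = 0
    by_cases h : ε = ε0
    · subst h
      have h3 : f (e (st ε).1 + e (st ε).2) = 0 := by
        rw [map_add]
        rcases hends with ⟨h1, h2⟩ | ⟨h1, h2⟩
        · rw [h1, h2, hfu, hfv]
          decide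
        · rw [h1, h2, hfu, hfv]
          decide
      rw [h3, zero_smul]
    · rw [if_neg h, smul_zero]
  · intro i
    rw [LinearMap.add_apply, inc_add, hM.2 i, inc_zmap]
    have h6 : (if (st ε0).1 = i then f (e i) • γ else 0) +
        (if (st ε0).2 = i then f (e i) • γ else 0) =
        (if i = u then γ else 0) + (if i = v then γ else 0) := by
      have a1 : (if u = i then f (e i) • γ else 0) = if i = u then γ else 0 := by
        by_cases hi : i = u
        · subst hi
          rw [if_pos rfl, if_pos rfl, hfu, one_smul]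
        · rw [if_neg hi, if_neg (Ne.symm hi)]
      have a2 : (if v = i then f (e i) • γ else 0) = if i = v then γ else 0 := by
        by_cases hi : i = v
        · subst hi
          rw [if_pos rfl, if_pos rfl, hfv, one_smul]
        · rw [if_neg hi, if_neg (Ne.symm hi)]
      rcases hends with ⟨h1, h2⟩ | ⟨h1, h2⟩
      · rw [h1, h2, a1, a2]
      · rw [h1, h2, a1, a2, add_comm]
    rw [h6]
    have h8 := two_self (if i = u then γ else (0 : Γ))
    calc (if i = bs then γ else 0) + (if i = u then γ else 0) +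
        ((if i = u then γ else 0) + (if i = v then γ else 0)) =
        (if i = bs then γ else 0) + ((if i = u then γ else 0) + (if i = u then γ else 0)) +
          (if i = v then γ else 0) := by abel
      _ = _ := by rw [h8, add_zero]
  · intro x hx
    rw [LinearMap.add_apply]
    have : zmap f γ ε0 x = 0 := by
      funext ε
      show f x • (if ε = ε0 then γ else 0) = 0
      rw [hfW x hx, zero_smul]
    rw [this, add_zero]

theorem move {st : Ed → Fin N × Fin N} {e : Fin N → A} {bs : Fin N} {γ : Γ}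
    (W : Submodule (ZMod 2) A) {u v : Fin N} (hconn : Conn st (blocked e W) u v)
    {M : A →ₗ[ZMod 2] (Ed → Γ)} (hM : IsM st e bs γ u M) :
    ∃ M' : A →ₗ[ZMod 2] (Ed → Γ), IsM st e bs γ v M' ∧ ∀ x ∈ W, M' x = M x := by
  induction hconn with
  | refl => exact ⟨M, hM, fun _ _ => rfl⟩
  | tail _ hstep ih =>
    obtain ⟨M', hM', h1⟩ := ih
    obtain ⟨M'', hM'', h2⟩ := move_step W hstep hM'
    exact ⟨M'', hM'', fun x hx => (h2 x hx).trans (h1 x hx)⟩

/-- The base graph has large components after deleting few vertices. -/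
def Robust (st : Ed → Fin N × Fin N) (q : ℕ) : Prop :=
  ∀ B : Finset (Fin N), B.card ≤ q → ∃ b, Big st B b

theorem extend {st : Ed → Fin N × Fin N} {e : Fin N → A} {bs : Fin N} {γ : Γ} {q : ℕ}
    (hrob : Robust st q) (hli : LinearIndependent (ZMod 2) e)
    {b : Fin N} {M : A →ₗ[ZMod 2] (Ed → Γ)} (hM : IsM st e bs γ b M)
    (W W' : Submodule (ZMod 2) A) (hWW : W ≤ W') (hb : Big st (blocked e W) b)
    (hdim : Module.finrank (ZMod 2) W' ≤ q) :
    ∃ (b' : Fin N) (M' : A →ₗ[ZMod 2] (Ed → Γ)), IsM st e bs γ b' M' ∧ (∀ x ∈ W, M' x = M x) ∧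
      Big st (blocked e W') b' := by
  obtain ⟨b', hb'⟩ := hrob (blocked e W') ((card_blocked hli W').trans hdim)
  have hc := hb.conn (hb'.mono (blocked_mono hWW))
  obtain ⟨M', hM', h1⟩ := move W hc hM
  exact ⟨b', M', hM', h1, hb'⟩

/-- The relation between tuples kept by the WL method. -/
def Good {k : ℕ} (st : Ed → Fin N × Fin N) (e : Fin N → A) (bs : Fin N) (γ : Γ)
    (S S' : Fin k → QQ Ed A Γ × QQ Ed A Γ) : Prop :=
  ∃ (b : Fin N) (M : A →ₗ[ZMod 2] (Ed → Γ)), IsM st e bs γ b M ∧ (∀ i, S' i = sh2 M (S i)) ∧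
    Big st (blocked e (Submodule.span (ZMod 2) (Set.range (comps S)))) b

theorem isoType_good {k : ℕ} {st : Ed → Fin N × Fin N} {e : Fin N → A} {bs : Fin N} {τ τ' : Γ}
    (he : Function.Injective e) (h : A → A → Γ) {S S' : Fin k → QQ Ed A Γ × QQ Ed A Γ}
    (hg : Good st e bs (τ + τ') S S') :
    isoType (GG st e bs h τ) k S = isoType (GG st e bs h τ') k S' := by
  obtain ⟨b, M, hM, hS, hb⟩ := hg
  have hcell : ∀ i, (S i).1.1 ≠ e b := by
    intro i hi
    apply hb.1
    rw [mem_blocked, ← hi]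
    exact Submodule.subset_span ⟨Sum.inl i, rfl⟩
  unfold isoType
  refine Prod.ext ?_ ?_
  · funext i j
    show (S i = S j) = (S' i = S' j)
    rw [hS i, hS j]
    exact propext ⟨fun h' => by rw [h'], fun h' => sh2_inj M h'⟩
  · funext i j
    show (S i ≠ S j ∧ ∃ l, co (FF st e bs h τ) l (S i) = co (FF st e bs h τ) l (S j)) =
      (S' i ≠ S' j ∧ ∃ l, co (FF st e bs h τ') l (S' i) = co (FF st e bs h τ') l (S' j))
    rw [hS i, hS j]
    refine propext (and_congr ?_ (exists_congr fun l => ?_))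
    · exact not_congr ⟨fun h' => by rw [h'], fun h' => sh2_inj M h'⟩
    · rw [co_sh2 hM he h _ (hcell i), co_sh2 hM he h _ (hcell j)]
      exact ⟨fun h' => by rw [h'], fun h' => sh_inj M h'⟩

end

end Pool.Agent.W185.LSQ
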